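import Pool.Agent.H55.GW.Targets2
import Pool.Agent.H55.GW.Basic

set_option autoImplicit false

namespace Pool.Agent.H39.GW
open Pool.Agent.H55.GW

theorem deg (hBIG : T_BIG) (hDUR : T_DUR) (hDUG : T_DUG) : T_DEG := by
  classical
  intro q hq φ hφ N
  obtain ⟨d0, hd0⟩ := hBIG q hq φ hφ N
  refine ⟨d0 + 1, ?_⟩
  intro M F m hG hR hm hEx hFd hFan hCo hN hN'
  have hout : ∀ v, {x | F.D m (Sum.inr v) x}.Finite := fun v =>
    F.uni_finite.subset fun x hx => (Frame.D_uni hx).2
  have hin : ∀ v, {x | F.D m x (Sum.inr v)}.Finite := fun v =>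
    F.uni_finite.subset fun x hx => (Frame.D_uni hx).1
  -- duality
  have hm' : F.dual.IsPM m := Frame.dual_isPM.2 hm
  have hEx' : F.dual.Exits m φ := by
    intro X hX S hS
    rw [Frame.dual_snk] at hS
    refine hFd X (fun x hx => ?_) S ((Frame.dual_sep hm).1 hS)
    have := hX x hx
    rw [Frame.dual_snk] at this
    exact this
  have hCo' : F.dual.CoFan m := by
    intro p hp hpP
    have hpP' : F.isP p := not_not.1 hpP
    rcases hFan p hp hpP' with h | h
    · left
      exact ⟨fun u => ⟨(h.1 u).2, (h.1 u).1⟩, h.2⟩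
    · right
      intro z hz
      obtain ⟨t, ht, hr⟩ := h z hz
      refine ⟨t, ?_, (Frame.dual_rIn hm).2 hr⟩
      rw [Frame.dual_src]
      exact ht
  have hbig1 := hd0 M F m hG hR hm hEx hCo hN
  have hbig2 := hd0 M.dual F.dual m (hDUG q M hG) (hDUR F M hR) hm' hEx' hCo' hN'
  have hdD : ∀ v, {x | F.dual.D m (Sum.inr v) x} = {x | F.D m x (Sum.inr v)} := by
    intro v
    ext x
    exact Frame.dual_D hm
  set H1 : Finset ℕ := F.V.filter
    (fun v => F.isP v ∧ d0 < {x | F.D m (Sum.inr v) x}.ncard) with hH1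
  set H2 : Finset ℕ := F.V.filter
    (fun v => ¬ F.isP v ∧ d0 < {x | F.D m x (Sum.inr v)}.ncard) with hH2
  have c1 : H1.card ≤ 1 := by
    rw [Finset.card_le_one]
    intro a ha b hb
    rw [hH1, Finset.mem_filter] at ha hb
    by_contra hne
    rcases hbig1 a ha.1 b hb.1 ha.2.1 hb.2.1 hne with h | h
    · have := ha.2.2; omega
    · have := hb.2.2; omega
  have c2 : H2.card ≤ 1 := by
    rw [Finset.card_le_one]
    intro a ha b hb
    rw [hH2, Finset.mem_filter] at ha hb
    by_contra hne
    rcases hbig2 a ha.1 b hb.1 ha.2.1 hb.2.1 hne with h | h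
    · rw [hdD] at h
      have := ha.2.2; omega
    · rw [hdD] at h
      have := hb.2.2; omega
  refine ⟨H1 ∪ H2, ?_, ?_, ?_⟩
  · exact Finset.union_subset (Finset.filter_subset _ _) (Finset.filter_subset _ _)
  · have := Finset.card_union_le H1 H2
    omega
  · intro v hv hvH
    rw [Finset.mem_union, not_or] at hvH
    by_cases hP : F.isP v
    · have h1 : {x | F.D m (Sum.inr v) x}.ncard ≤ d0 := by
        by_contra h
        exact hvH.1 (Finset.mem_filter.2 ⟨hv, hP, by omega⟩)
      have h2 : {x | F.G (Sum.inr v) x} ⊆ insert (m v) {x | F.D m (Sum.inr v) x} := by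
        intro x hx
        rcases Frame.G_D hm hx with h | h
        · exact Set.mem_insert_of_mem _ h
        · rw [Frame.in_P hm hP h]
          exact Set.mem_insert _ _
      have h3 := Set.ncard_le_ncard h2 ((hout v).insert _)
      have h4 := Set.ncard_insert_le (m v) {x | F.D m (Sum.inr v) x}
      omega
    · have h1 : {x | F.D m x (Sum.inr v)}.ncard ≤ d0 := by
        by_contra h
        exact hvH.2 (Finset.mem_filter.2 ⟨hv, hP, by omega⟩)
      have h2 : {x | F.G (Sum.inr v) x} ⊆ insert (m v) {x | F.D m x (Sum.inr v)} := by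
        intro x hx
        rcases Frame.G_D hm hx with h | h
        · rw [Frame.out_Q hm hP h]
          exact Set.mem_insert _ _
        · exact Set.mem_insert_of_mem _ h
      have h3 := Set.ncard_le_ncard h2 ((hin v).insert _)
      have h4 := Set.ncard_insert_le (m v) {x | F.D m x (Sum.inr v)}
      omega

end Pool.Agent.H39.GW
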