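import Pool.Agent.H55.GW.Targets2
import Pool.Agent.H55.GW.Basic

set_option autoImplicit false

namespace Pool.Agent.H39.GW
open Pool.Agent.H55.GW

theorem ncb (hTRC : T_TRC) (hCMB : T_CMB) : T_NCB := by
  classical
  intro q hq φ hφ N d
  obtain ⟨n, hn⟩ := hCMB q hq φ hφ N
  obtain ⟨N', hN'⟩ := hTRC (max d 1) n
  refine ⟨N', ?_⟩
  intro M F m hG hR hm hEx hFd hNo H hdeg e he heb
  by_contra hlt
  push Not at hlt
  set HH : Set Vx := Sum.inr '' (H : Set ℕ) with hHH
  set Bs : Set ℕ := {b | b ∈ F.base m ∧ RIn (F.D m) HHᶜ (Sum.inl e) (Sum.inl b)} with hBs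
  have hBf : Bs.Finite := F.E.finite_toSet.subset fun b hb => Frame.base_subset hb.1
  set T : Finset Vx := hBf.toFinset.image Sum.inl with hT
  have hTc : T.card = Bs.ncard := by
    rw [hT, Finset.card_image_of_injective _ Sum.inl_injective, Set.ncard_eq_toFinset_card _ hBf]
  have hTm : ∀ t ∈ T, ∃ b ∈ Bs, t = Sum.inl b := by
    intro t ht
    rw [hT, Finset.mem_image] at ht
    obtain ⟨b, hb, rfl⟩ := ht
    exact ⟨b, by simpa using hb, rfl⟩
  set D' : Vx → Vx → Prop := fun u v => F.D m u v ∧ u ∉ HH ∧ v ∉ HH with hD'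
  have hout : ∀ u, {x | F.D m u x}.Finite := fun v =>
    F.uni_finite.subset fun x hx => (Frame.D_uni hx).2
  obtain ⟨v, t, Seg, Ex, hC⟩ := hN' D' F.uni F.uni_finite (fun u v h => Frame.D_uni h.1) (by
    intro u
    rcases u with e' | v
    · by_cases ha : ∃ v, F.att e' v
      · obtain ⟨v, hv⟩ := ha
        have h1 : {x | D' (Sum.inl e') x} ⊆ {Sum.inr v} := by
          intro x hx
          rcases x with e'' | w
          · exact absurd hx.1 (by simp [Frame.D])
          · have h2 : F.att e' w := hx.1.1
            rw [F.att_uniq e' w v h2 hv]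
            rfl
        have h3 := Set.ncard_le_ncard h1 (Set.finite_singleton _)
        rw [Set.ncard_singleton] at h3
        exact h3.trans (le_max_right _ _)
      · have h1 : {x | D' (Sum.inl e') x} = ∅ := by
          ext x
          constructor
          · intro hx
            rcases x with e'' | w
            · exact absurd hx.1 (by simp [Frame.D])
            · exact ha ⟨w, hx.1.1⟩
          · intro hx; exact absurd hx (Set.notMem_empty _)
        rw [h1, Set.ncard_empty]
        exact Nat.zero_le _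
    · by_cases hv : v ∈ F.V ∧ v ∉ H
      · have h1 : {x | D' (Sum.inr v) x} ⊆ {x | F.G (Sum.inr v) x} := fun x hx =>
          Frame.D_G hx.1
        have hf : {x | F.G (Sum.inr v) x}.Finite := by
          refine F.uni_finite.subset fun x hx => ?_
          rcases Frame.G_D hm hx with h | h
          · exact (Frame.D_uni h).2
          · exact (Frame.D_uni h).1
        exact ((Set.ncard_le_ncard h1 hf).trans (hdeg v hv.1 hv.2)).trans (le_max_left _ _)
      · have h1 : {x | D' (Sum.inr v) x} = ∅ := by
          ext x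
          constructor
          · intro hx
            apply hv
            refine ⟨?_, ?_⟩
            · rcases (Frame.D_uni hx.1).1 with ⟨w, hw, h⟩ | ⟨w, hw, h⟩
              · rw [Sum.inr.inj h]; exact hw
              · cases h
            · intro h
              exact hx.2.1 ⟨v, by simpa using h, rfl⟩
          · intro hx; exact absurd hx (Set.notMem_empty _)
        rw [h1, Set.ncard_empty]
        exact Nat.zero_le _) (Sum.inl e) T (by
    intro t ht
    obtain ⟨b, hb, rfl⟩ := hTm t ht
    refine ⟨fun x hx => Frame.no_out_snk hb.1 x hx.1, ?_⟩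
    exact hb.2.mono (fun u v h hu hv => ⟨h, hu, hv⟩) (Set.subset_univ _)) (by
    intro h
    obtain ⟨b, hb, h2⟩ := hTm _ h
    rw [Sum.inl.inj h2] at heb
    exact heb hb.1) (by rw [hTc]; exact hlt)
  refine hn M F m hG hR hm hEx hFd hNo e he heb v t Seg Ex ?_
  have hmono : ∀ {S : Set Vx} {x y : Vx}, RIn D' S x y → RIn (F.D m) S x y := fun h =>
    h.mono (fun u v h _ _ => h.1) subset_rfl
  refine ⟨fun h => hmono (hC.start h), fun i hi => hmono (hC.step i hi), hC.mem,
    fun i hi u hu => hmono (hC.seg i hi u hu), fun i hi => ⟨?_, hmono (hC.ex i hi).2⟩,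
    fun i hi u hu => hmono (hC.exr i hi u hu), hC.dSeg, hC.dEx, hC.dSE⟩
  obtain ⟨b, hb, h⟩ := hTm _ (by simpa using (hC.ex i hi).1)
  exact ⟨b, hb.1, h⟩

end Pool.Agent.H39.GW
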